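import Mathlib
import Pool.Agent.Helper21.SR.St

/-! Project SR, module TTX: the label m = x y0. -/

namespace Pool.Agent.Helper38.SR

open Finset
open scoped Pointwise
open Pool.Agent.Helper21.SR

private theorem fr_pos_TTX (A : Finset ℕ) {x s : ℕ} (hx : x ∈ A) (hs : s ∈ A) :
    0 < fr A (x * s) := by
  unfold fr
  exact Finset.card_pos.2 ⟨(x, s), by simp [hx, hs]⟩

private theorem wk_nonneg_TTX (A : Finset ℕ) (x y : ℕ) : 0 ≤ wk A x y := by
  unfold wk
  refine mul_nonneg (by positivity) (Finset.sum_nonneg fun s _ => Finset.sum_nonneg fun t _ => ?_)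
  split_ifs <;> positivity

private theorem wk_row_TTX (A : Finset ℕ) (hA : A.Nonempty) {x : ℕ} (hx : x ∈ A) :
    ∑ y ∈ A, wk A x y = 1 := by
  unfold wk
  rw [← Finset.mul_sum, Finset.sum_comm]
  have h : ∀ s ∈ A, ∑ y ∈ A, ∑ t ∈ A, (if x * s = y * t then 1 / (fr A (x * s) : ℝ) else 0)
      = 1 := by
    intro s hs
    have h1 : ∑ y ∈ A, ∑ t ∈ A, (if x * s = y * t then 1 / (fr A (x * s) : ℝ) else 0)
        = (fr A (x * s) : ℝ) * (1 / (fr A (x * s) : ℝ)) := by
      rw [← Finset.sum_product' (f := fun y t => if x * s = y * t then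
        1 / (fr A (x * s) : ℝ) else 0), ← Finset.sum_filter, Finset.sum_const, nsmul_eq_mul]
      congr 2
      unfold fr
      congr 1
      ext p
      simp [eq_comm]
    have h2 : (fr A (x * s) : ℝ) ≠ 0 := by exact_mod_cast (fr_pos_TTX A hx hs).ne'
    rw [h1, mul_one_div_cancel h2]
  rw [Finset.sum_congr rfl h, Finset.sum_const, nsmul_eq_mul, mul_one]
  have h3 : (#A : ℝ) ≠ 0 := by exact_mod_cast (Finset.card_pos.2 hA).ne'
  rw [one_div, inv_mul_cancel₀ h3]

private theorem px_nonneg_TTX (A : Finset ℕ) (x m : ℕ) : 0 ≤ px (wk A) A x m := by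
  unfold px
  refine Finset.sum_nonneg fun y _ => ?_
  split_ifs
  · exact wk_nonneg_TTX A x y
  · exact le_rfl

private theorem sum_px_TTX (A : Finset ℕ) (F : ℕ → ℕ → ℝ) :
    ∑ m ∈ A * A, ∑ x ∈ A, px (wk A) A x m * F x m = ∑ x ∈ A, ∑ y ∈ A, wk A x y * F x (x * y) := by
  rw [Finset.sum_comm]
  refine Finset.sum_congr rfl fun x hx => ?_
  unfold px
  have h1 : ∀ m ∈ A * A, (∑ y ∈ A, if x * y = m then wk A x y else 0) * F x m
      = ∑ y ∈ A, if x * y = m then wk A x y * F x (x * y) else 0 := by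
    intro m _
    rw [Finset.sum_mul]
    refine Finset.sum_congr rfl fun y _ => ?_
    split_ifs with h
    · rw [h]
    · rw [zero_mul]
  rw [Finset.sum_congr rfl h1, Finset.sum_comm]
  refine Finset.sum_congr rfl fun y hy => ?_
  rw [Finset.sum_ite_eq (A * A) (x * y), if_pos (Finset.mul_mem_mul hx hy)]

private theorem sq_div_TTX (C S P u v : ℝ) (hP : 0 ≤ P) (h0 : P = 0 → C = 0 ∧ S = 0) :
    2 * (C * u + S * v) - P * (u ^ 2 + v ^ 2) ≤ (C ^ 2 + S ^ 2) / P := by
  rcases hP.eq_or_lt with h | h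
  · obtain ⟨h1, h2⟩ := h0 h.symm
    rw [h1, h2, ← h]
    simp
  · rw [le_div_iff₀ h]
    nlinarith [sq_nonneg (C - P * u), sq_nonneg (S - P * v)]

theorem hTTX : StTTX := by
  intro A h w hpos hA hadd
  have hn : (0 : ℝ) < #A := by exact_mod_cast Finset.card_pos.2 hA
  -- the value of h on products
  obtain ⟨H, hH⟩ : ∃ H : ℕ → ℝ, ∀ x ∈ A, ∀ y ∈ A, H (x * y) = h x + h y := by
    classical
    refine ⟨fun m => if hm : ∃ p : ℕ × ℕ, p.1 ∈ A ∧ p.2 ∈ A ∧ p.1 * p.2 = m then
      h hm.choose.1 + h hm.choose.2 else 0, fun x hx y hy => ?_⟩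
    have hm : ∃ p : ℕ × ℕ, p.1 ∈ A ∧ p.2 ∈ A ∧ p.1 * p.2 = x * y := ⟨(x, y), hx, hy, rfl⟩
    have hs := hm.choose_spec
    simp only [dif_pos hm]
    exact hadd _ hs.1 _ hs.2.1 _ hx _ hy hs.2.2
  set a := Gc A h (w / 2) with ha
  have hterm : ∀ m ∈ A * A,
      2 * a * ∑ x ∈ A, px (wk A) A x m * Real.cos (w * h x - w * H m / 2)
        - a ^ 2 * ∑ x ∈ A, px (wk A) A x m * 1 ≤
      (∑ x ∈ A, ∑ y ∈ A, px (wk A) A x m * px (wk A) A y m * Real.cos (w * (h x - h y))) /
        (∑ x ∈ A, px (wk A) A x m) := by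
    intro m _
    have e1 : ∑ x ∈ A, ∑ y ∈ A, px (wk A) A x m * px (wk A) A y m * Real.cos (w * (h x - h y))
        = (∑ x ∈ A, px (wk A) A x m * Real.cos (w * h x)) ^ 2
          + (∑ x ∈ A, px (wk A) A x m * Real.sin (w * h x)) ^ 2 := by
      rw [sq, sq, Finset.sum_mul_sum, Finset.sum_mul_sum, ← Finset.sum_add_distrib]
      refine Finset.sum_congr rfl fun x _ => ?_
      rw [← Finset.sum_add_distrib]
      refine Finset.sum_congr rfl fun y _ => ?_
      rw [mul_sub, Real.cos_sub]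
      ring
    rw [e1]
    refine le_trans (le_of_eq ?_) (sq_div_TTX _ _ (∑ x ∈ A, px (wk A) A x m)
      (a * Real.cos (w * H m / 2)) (a * Real.sin (w * H m / 2))
      (Finset.sum_nonneg fun x _ => px_nonneg_TTX A x m) ?_)
    · have e2 : ∑ x ∈ A, px (wk A) A x m * Real.cos (w * h x - w * H m / 2)
          = (∑ x ∈ A, px (wk A) A x m * Real.cos (w * h x)) * Real.cos (w * H m / 2)
            + (∑ x ∈ A, px (wk A) A x m * Real.sin (w * h x)) * Real.sin (w * H m / 2) := by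
        rw [Finset.sum_mul, Finset.sum_mul, ← Finset.sum_add_distrib]
        refine Finset.sum_congr rfl fun x _ => ?_
        rw [Real.cos_sub]
        ring
      rw [e2, ← Finset.sum_mul]
      have e3 := Real.sin_sq_add_cos_sq (w * H m / 2)
      have e4 : (a * Real.cos (w * H m / 2)) ^ 2 + (a * Real.sin (w * H m / 2)) ^ 2 = a ^ 2 := by
        rw [mul_pow, mul_pow, ← mul_add, add_comm (Real.cos (w * H m / 2) ^ 2), e3, mul_one]
      rw [e4]
      ring
    · intro h0
      have h1 : ∀ x ∈ A, px (wk A) A x m = 0 :=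
        (Finset.sum_eq_zero_iff_of_nonneg fun x _ => px_nonneg_TTX A x m).1 h0
      constructor
      · exact Finset.sum_eq_zero fun x hx => by rw [h1 x hx, zero_mul]
      · exact Finset.sum_eq_zero fun x hx => by rw [h1 x hx, zero_mul]
  have hsum := Finset.sum_le_sum hterm
  rw [Finset.sum_sub_distrib, ← Finset.mul_sum, ← Finset.mul_sum,
    sum_px_TTX A (fun x m => Real.cos (w * h x - w * H m / 2)), sum_px_TTX A (fun _ _ => 1)] at hsum
  have e5 : ∑ x ∈ A, ∑ y ∈ A, wk A x y * Real.cos (w * h x - w * H (x * y) / 2) = #A * a := by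
    rw [ha]
    unfold Gc
    rw [← mul_assoc, mul_one_div_cancel hn.ne', one_mul]
    refine Finset.sum_congr rfl fun x hx => Finset.sum_congr rfl fun y hy => ?_
    rw [hH x hx y hy]
    congr 2
    ring
  have e6 : ∑ x ∈ A, ∑ y ∈ A, wk A x y * 1 = #A := by
    have e7 : ∀ x ∈ A, ∑ y ∈ A, wk A x y * 1 = 1 := fun x hx =>
      (Finset.sum_congr rfl fun y _ => mul_one _).trans (wk_row_TTX A hA hx)
    rw [Finset.sum_congr rfl e7]
    simp
  rw [e5, e6] at hsum
  unfold Ac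
  rw [one_div, ← div_eq_inv_mul, le_div_iff₀ hn]
  refine le_trans (le_of_eq ?_) hsum
  ring

end Pool.Agent.Helper38.SR
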